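import Pool.Agent.Q266.RP.Stm3

set_option autoImplicit false

/-!
Project RP (helper266), JOB OMX: elements of order p in a class 2 normal subgroup.
-/

open Pool.Agent.Q266.RP

namespace Pool.Agent.Q121.RPB

theorem pow_comm_aux {G : Type} [Group G] {a b t : G} (ht : ∀ g, g * t = t * g)
    (hba : b * a = t * (a * b)) (n : ℕ) : b ^ n * a = t ^ n * (a * b ^ n) := by
  induction n with
  | zero => simp
  | succ n ih =>
    calc b ^ (n + 1) * a = b ^ n * (b * a) := by rw [pow_succ, mul_assoc]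
      _ = b ^ n * (t * (a * b)) := by rw [hba]
      _ = (b ^ n * t) * (a * b) := by rw [mul_assoc]
      _ = (t * b ^ n) * (a * b) := by rw [ht]
      _ = t * ((b ^ n * a) * b) := by simp only [mul_assoc]
      _ = t * ((t ^ n * (a * b ^ n)) * b) := by rw [ih]
      _ = t ^ (n + 1) * (a * b ^ (n + 1)) := by
        rw [pow_succ' t, pow_succ b]
        simp only [mul_assoc]

theorem mul_pow_aux {G : Type} [Group G] {a b t : G} (ht : ∀ g, g * t = t * g)
    (hba : b * a = t * (a * b)) (n : ℕ) :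
    (a * b) ^ n = t ^ (n.choose 2) * (a ^ n * b ^ n) := by
  have htn : ∀ (m : ℕ) (g : G), g * t ^ m = t ^ m * g := fun m g =>
    (Commute.pow_right (show Commute g t from ht g) m)
  induction n with
  | zero => simp
  | succ n ih =>
    calc (a * b) ^ (n + 1) = (a * b) ^ n * (a * b) := pow_succ _ _
      _ = t ^ (n.choose 2) * (a ^ n * b ^ n) * (a * b) := by rw [ih]
      _ = t ^ (n.choose 2) * (a ^ n * (b ^ n * a) * b) := by simp only [mul_assoc]
      _ = t ^ (n.choose 2) * (a ^ n * (t ^ n * (a * b ^ n)) * b) := by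
        rw [pow_comm_aux ht hba]
      _ = t ^ (n.choose 2) * ((a ^ n * t ^ n) * (a * b ^ n) * b) := by simp only [mul_assoc]
      _ = t ^ (n.choose 2) * ((t ^ n * a ^ n) * (a * b ^ n) * b) := by rw [htn]
      _ = t ^ (n.choose 2 + n) * (a ^ (n + 1) * b ^ (n + 1)) := by
        rw [pow_add, pow_succ a, pow_succ b]
        simp only [mul_assoc]
      _ = t ^ ((n + 1).choose 2) * (a ^ (n + 1) * b ^ (n + 1)) := by
        rw [Nat.choose_succ_succ' n 1, Nat.choose_one_right, Nat.add_comm]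

theorem omx (hN : S_NPAIR) : S_OMX := by
  intro p hp hp2 G _ _ hG hc z hz hzo D hD hcard
  have hzc : ∀ g, g * z = z * g := fun g => Subgroup.mem_center_iff.1 hz g
  have hcom : ∀ c ∈ Subgroup.zpowers z, ∀ g : G, g * c = c * g := by
    rintro _ ⟨n, rfl⟩ g
    exact Commute.zpow_right (show Commute g z from hzc g) n
  have hcp : ∀ c ∈ Subgroup.zpowers z, c ^ p = 1 := by
    rintro _ ⟨n, rfl⟩
    show (z ^ n) ^ p = 1
    rw [← zpow_natCast, ← zpow_mul, mul_comm, zpow_mul, zpow_natCast, ← hzo, pow_orderOf_eq_one,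
      one_zpow]
  have hp3 : 2 < p := lt_of_le_of_ne hp.out.two_le (Ne.symm hp2)
  let N : Subgroup G :=
    { carrier := {g | g ∈ D ∧ g ^ p = 1 ∧ ∀ h ∈ D, g * h * g⁻¹ * h⁻¹ ∈ Subgroup.zpowers z}
      one_mem' := ⟨D.one_mem, one_pow p, fun h _ => by simp [Subgroup.one_mem]⟩
      mul_mem' := by
        rintro a b ⟨ha1, ha2, ha3⟩ ⟨hb1, hb2, hb3⟩
        refine ⟨D.mul_mem ha1 hb1, ?_, fun h hh => ?_⟩
        · have ht := hb3 a ha1
          have hba : b * a = (b * a * b⁻¹ * a⁻¹) * (a * b) := by group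
          rw [mul_pow_aux (hcom _ ht) hba p, ha2, hb2, mul_one, mul_one]
          obtain ⟨m, hm⟩ := hp.out.dvd_choose_self two_ne_zero hp3
          rw [hm, pow_mul, hcp _ ht, one_pow]
        · have h1 := hb3 h hh
          have h2 := ha3 h hh
          have e : a * b * h * (a * b)⁻¹ * h⁻¹ =
              (a * (b * h * b⁻¹ * h⁻¹)) * (h * a⁻¹ * h⁻¹) := by group
          rw [e, hcom _ h1 a]
          have e2 : b * h * b⁻¹ * h⁻¹ * a * (h * a⁻¹ * h⁻¹) =
              (b * h * b⁻¹ * h⁻¹) * (a * h * a⁻¹ * h⁻¹) := by group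
          rw [e2]
          exact Subgroup.mul_mem _ h1 h2
      inv_mem' := by
        rintro a ⟨ha1, ha2, ha3⟩
        refine ⟨D.inv_mem ha1, ?_, fun h hh => ?_⟩
        · rw [inv_pow, ha2, inv_one]
        · have h2 := Subgroup.inv_mem _ (ha3 h hh)
          have e : a⁻¹ * h * a⁻¹⁻¹ * h⁻¹ = a⁻¹ * ((a * h * a⁻¹ * h⁻¹)⁻¹ * a) := by group
          rw [e, ← hcom _ h2 a, ← mul_assoc, inv_mul_cancel, one_mul]
          exact h2 }
  have hNn : N.Normal := by
    constructor
    rintro n ⟨hn1, hn2, hn3⟩ g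
    refine ⟨hD.conj_mem n hn1 g, ?_, fun h hh => ?_⟩
    · rw [conj_pow, hn2, mul_one, mul_inv_cancel]
    · have h1 : g⁻¹ * h * g ∈ D := by
        have := hD.conj_mem h hh g⁻¹
        rwa [inv_inv] at this
      have h2 := hn3 _ h1
      have e : g * n * g⁻¹ * h * (g * n * g⁻¹)⁻¹ * h⁻¹ =
          (g * (n * (g⁻¹ * h * g) * n⁻¹ * (g⁻¹ * h * g)⁻¹)) * g⁻¹ := by group
      rw [e, hcom _ h2 g, mul_assoc, mul_inv_cancel, mul_one]
      exact h2
  exact hN p G hG hc N hNn (fun n hn => hn.2.1) hcard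

end Pool.Agent.Q121.RPB
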